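import Mathlib
import Pool.Agent.K1H50.AS.ClF

set_option autoImplicit false

/-!
# Cunningham chains with gaps: a positive share of all sets of positions, at every scale

Let `c_j(n)` be the `j`-th term of the chain `n, 2 n + s, 2 (2 n + s) + s, ...` (`s = 1`: chains of the first kind,
`s = -1`: of the second kind). A Cunningham chain of length `k + 1` is a prime `n` with `c_j(n)` prime for `j` in
`P = {0, 1, ..., k}`. For every `k` and all large `J`, at least `((5 / 18) ^ k - ε) (J choose k + 1)` of the sets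
`P ⊆ {0, ..., J - 1}` of `k + 1` positions (at least `(1 / 3 - ε) (J choose 2)` for `k = 1`) are such that at EVERY
large scale `X` there are at least `X / (log X) ^ C` integers `n ∈ [X / 16, X]` with all terms `c_j(n)`, `j ∈ P`, prime,
and even arbitrarily long narrow progressions of such `n`.

The theorem on classes of linear forms with the constant `18 / 5`, with narrow progressions
(`Pool.Agent.Y827.RO.lamE0`, `narGen`) and the density theorem `Pool.Agent.H362R2.CM.dens` are from the starting
files.
-/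

namespace Pool.Agent.Results.MP_c183ae_nt.ChainsWithGaps

open Finset Filter

/-- The `j`-th term of the chain `n, 2 n + s, 2 (2 n + s) + s, ...`. -/
def term (s n : ℤ) (j : ℕ) : ℤ := (fun x : ℤ => 2 * x + s)^[j] n

open Classical in
/-- The number of the integers `n`, `X / 16 ≤ n ≤ X`, such that for `m = n, n + D, ..., n + (l - 1) D` the terms at
the positions in `P` of the chain which starts with `m` are positive primes. -/
noncomputable def count (s : ℤ) (P : Finset ℕ) (l D X : ℕ) : ℕ :=
  ((Icc 1 X).filter (fun n : ℕ => (X : ℝ) / 16 ≤ n ∧ ∀ i < l, ∀ j ∈ P,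
    0 < term s ((n : ℤ) + i * D) j ∧ Prime (term s ((n : ℤ) + i * D) j))).card

/-- Many narrow progressions: for some common difference `1 ≤ D ≤ (log X) ^ C` at least `X / (log X) ^ C` integers
`n` in `[X / 16, X]` are counted. -/
def Good (s : ℤ) (l C X : ℕ) (P : Finset ℕ) : Prop :=
  ∃ D : ℕ, 1 ≤ D ∧ (D : ℝ) ≤ Real.log X ^ C ∧ (X : ℝ) / Real.log X ^ C ≤ (count s P l D X : ℝ)

/-- The share: `1 / 3` for pairs of positions, `(5 / 18) ^ k` for sets of `k + 1` positions, `k ≥ 2`. -/
noncomputable def share (k : ℕ) : ℝ := if k = 1 then 1 / 3 else (5 / 18) ^ k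

open Pool.Agent.K1H50.LM Pool.Agent.K1H50.AS

lemma term_eq (s n : ℤ) (j : ℕ) : term s n j = 2 ^ j * n + s * (2 ^ j - 1) := by
  unfold term
  induction j with
  | zero => simp
  | succ j ih =>
    rw [Function.iterate_succ_apply', ih, pow_succ]
    ring

/-- the form -/
def fm (s : ℤ) (j : ℕ) : ℤ × ℤ := (2 ^ j, s * (2 ^ j - 1))

lemma fm_inj (s : ℤ) : Function.Injective (fm s) := by
  intro i j h
  have h1 := congrArg Prod.fst h
  simp only [fm] at h1
  have h2 : (2 : ℕ) ^ i = 2 ^ j := by exact_mod_cast h1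
  exact Nat.pow_right_injective (le_refl 2) h2

lemma cls (k : ℕ) (hk : 1 ≤ k) (e : ℝ) (he : 0 < e) : ClsF k (share k - e) := by
  unfold share
  split_ifs with h
  · subst h
    exact clsF3 e he
  · exact clsF5 k hk e he

open Classical in
/-- For every `k ≥ 1` and `ε > 0` there is `J₀` such that for all `J ≥ J₀` and all `l` there is `C` such that for all
sufficiently large `X` and both kinds of chains, `s = 1` and `s = -1`, at least the share `share k - ε` of the sets of
`k + 1` positions in `{0, ..., J - 1}` is good at the scale `X`, for progressions of length `l`. -/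
theorem result (k : ℕ) (hk : 1 ≤ k) (ε : ℝ) (hε : 0 < ε) : ∃ J₀ : ℕ, ∀ J : ℕ, J₀ ≤ J → ∀ l : ℕ, ∃ C X₀ : ℕ,
    ∀ X : ℕ, X₀ ≤ X → ∀ s : ℤ, s = 1 ∨ s = -1 →
      (share k - ε) * (J.choose (k + 1)) ≤
        ((((range J).powersetCard (k + 1)).filter (Good s l C X)).card : ℝ) := by
  obtain ⟨n0, z0, h⟩ := cls k hk ε hε
  have key : ∀ s : ℤ, s = 1 ∨ s = -1 → ∀ J : ℕ, n0 ≤ J → ∀ l : ℕ, ∃ C : ℕ, ∀ᶠ X : ℕ in atTop,
      (share k - ε) * (J.choose (k + 1)) ≤
        ((((range J).powersetCard (k + 1)).filter (Good s l C X)).card : ℝ) := by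
    intro s hs J hJ l
    have hc : ((range J).image (fm s)).card = J := by
      rw [card_image_of_injective _ (fm_inj s), card_range]
    obtain ⟨C, hC⟩ := h ((range J).image (fm s)) (-s) (by
      intro f hf
      obtain ⟨j, _, rfl⟩ := Finset.mem_image.1 hf
      refine ⟨by unfold fm; positivity, ?_⟩
      unfold fm
      simp only
      rcases hs with rfl | rfl
      · exact ⟨1, -1, by ring⟩
      · exact ⟨1, 1, by ring⟩) (by
      intro f hf p hp _ hd
      obtain ⟨j, _, rfl⟩ := Finset.mem_image.1 hf
      unfold fm at hd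
      simp only at hd
      have e : (2 : ℤ) ^ j * -s + s * (2 ^ j - 1) = -s := by ring
      rw [e] at hd
      have h1 : IsUnit (p : ℤ) := by
        rcases hs with rfl | rfl
        · exact isUnit_of_dvd_unit hd (by norm_num)
        · exact isUnit_of_dvd_unit hd (by norm_num)
      exact (Nat.prime_iff_prime_int.1 hp).not_isUnit h1) (by rw [hc]; exact hJ) l
    refine ⟨C, ?_⟩
    filter_upwards [hC] with X hX
    rw [hc] at hX
    refine hX.trans ?_
    rw [Nat.cast_le]
    have hsub : (((range J).image (fm s)).powersetCard (k + 1)).filter (GoodP l C X) ⊆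
        (((range J).powersetCard (k + 1)).filter (Good s l C X)).image (fun P => P.image (fm s)) := by
      intro U hU
      rw [mem_filter, mem_powersetCard] at hU
      obtain ⟨⟨hU1, hU2⟩, hU3⟩ := hU
      have himg : ((range J).filter (fun j => fm s j ∈ U)).image (fm s) = U := by
        ext x
        constructor
        · intro hx
          obtain ⟨j, hj, rfl⟩ := Finset.mem_image.1 hx
          exact (mem_filter.1 hj).2
        · intro hx
          obtain ⟨j, hj, rfl⟩ := Finset.mem_image.1 (hU1 hx)
          exact mem_image_of_mem _ (mem_filter.2 ⟨hj, hx⟩)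
      refine Finset.mem_image.2 ⟨(range J).filter (fun j => fm s j ∈ U), ?_, himg⟩
      rw [mem_filter, mem_powersetCard]
      refine ⟨⟨filter_subset _ _, ?_⟩, ?_⟩
      · rw [← hU2, ← himg, card_image_of_injective _ (fm_inj s), himg]
      · obtain ⟨D, h1, h2, h3⟩ := hU3
        refine ⟨D, h1, h2, h3.trans ?_⟩
        rw [Nat.cast_le]
        unfold cntP count
        apply card_le_card
        intro n hn
        rw [mem_filter] at hn ⊢
        refine ⟨hn.1, hn.2.1, fun i hi j hj => ?_⟩
        have h4 := hn.2.2 i hi (fm s j) (mem_filter.1 hj).2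
        have e : (fm s j).1 * ((n + i * D : ℕ) : ℤ) + (fm s j).2 = term s ((n : ℤ) + i * D) j := by
          rw [term_eq]
          unfold fm
          push_cast
          ring
        rw [e] at h4
        have hn1 : (1 : ℤ) ≤ n := by exact_mod_cast (mem_Icc.1 hn.1).1
        have hpos : 0 < term s ((n : ℤ) + i * D) j := by
          rw [term_eq]
          have h5 : (1 : ℤ) ≤ 2 ^ j := by exact_mod_cast Nat.one_le_two_pow
          have h6 : (0 : ℤ) ≤ (i : ℤ) * D := by positivity
          rcases hs with rfl | rfl <;> nlinarith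
        refine ⟨hpos, ?_⟩
        rw [Int.prime_iff_natAbs_prime]
        exact h4
    exact (card_le_card hsub).trans card_image_le
  refine ⟨n0, fun J hJ l => ?_⟩
  obtain ⟨C₁, h1⟩ := key 1 (Or.inl rfl) J hJ l
  obtain ⟨C₂, h2⟩ := key (-1) (Or.inr rfl) J hJ l
  have hlog : ∀ᶠ N : ℕ in atTop, 1 ≤ Real.log N :=
    (Real.tendsto_log_atTop.comp tendsto_natCast_atTop_atTop).eventually_ge_atTop _
  obtain ⟨X₀, hX₀⟩ := eventually_atTop.1 ((h1.and h2).and hlog)
  have mono : ∀ (s : ℤ) (C X : ℕ) (P : Finset ℕ), C ≤ C₁ + C₂ → 1 ≤ Real.log X → Good s l C X P →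
      Good s l (C₁ + C₂) X P := by
    intro s C X P hC hX ⟨D, g1, g2, g3⟩
    refine ⟨D, g1, g2.trans (pow_le_pow_right₀ hX hC), le_trans ?_ g3⟩
    exact div_le_div_of_nonneg_left (Nat.cast_nonneg _) (by positivity) (pow_le_pow_right₀ hX hC)
  refine ⟨C₁ + C₂, X₀, fun X hX s hs => ?_⟩
  obtain ⟨⟨g1, g2⟩, g3⟩ := hX₀ X hX
  rcases hs with rfl | rfl
  · refine g1.trans ?_
    rw [Nat.cast_le]
    apply card_le_card
    intro P hP
    rw [mem_filter] at hP ⊢
    exact ⟨hP.1, mono 1 C₁ X P (by omega) g3 hP.2⟩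
  · refine g2.trans ?_
    rw [Nat.cast_le]
    apply card_le_card
    intro P hP
    rw [mem_filter] at hP ⊢
    exact ⟨hP.1, mono (-1) C₂ X P (by omega) g3 hP.2⟩

end Pool.Agent.Results.MP_c183ae_nt.ChainsWithGaps
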