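import Pool.Agent.X32.Uni.Exact

/-!
# Cunningham chains and Chen's theorem

Chains of the first kind are the sequences `2 ^ l * N - 1` and chains of the second kind the sequences
`2 ^ l * N + 1`, `l` running over consecutive integers. For every finite set `F` of positions `(l, e)`,
`e = 1` or `e = -1` (for instance the positions of a chain of any length `k` of the first or second kind, or of
both kinds at the same time), and any two different positions in `F`, there are at least `κ (B - A) / log ^ k X`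
integers `N` in every interval `(A, B]`, `B ≤ X`, `B - A ≥ θ X`, (`k = |F|`, the conjectured order of magnitude for
prime chains) such that the number at the first position is prime, the number at the second position is a product of
at most two primes, both `> X ^ (1/9)`, all numbers at positions of `F` are products of at most `t` primes
`> X ^ (1/t)`, and all numbers at the positions of a given finite set `T` outside of `F` (for instance the number
before the chain and the `r` numbers after the chain) have a prime factor `≤ C`.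
Every subset with at least `δ (B - A) / log ^ k X` elements of the set of these `N` contains `s` terms of an
arithmetic progression with difference at most a power of `log X`.

Core of the proof: `Pool.Agent.X32.Uni.exactU` of the starting library (never handed in).
-/

set_option autoImplicit false

namespace Pool.Agent.Results.MP_c183ae_nt.ChenChains

open Finset

/-- the number `2 ^ l * N + e` at the position `x = (l, e)` -/
def term (N : ℕ) (x : ℕ × ℤ) : ℤ := 2 ^ x.1 * N + x.2

/-- `v > 1` is a product of at most `r` primes, all of them larger than `y` -/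
def Almost (r : ℕ) (y : ℝ) (v : ℤ) : Prop :=
  1 < v ∧ v.natAbs.primeFactorsList.length ≤ r ∧ ∀ q : ℕ, q.Prime → (q : ℤ) ∣ v → y < q

open Classical in
/-- the `N` in `(A, B]` for which the number at the position `i` is prime, the number at `j` is a product of at most
two primes, both `> X ^ (1/9)`, all numbers at the positions of `F` are products of at most `t` primes `> X ^ (1/t)`,
and all numbers at the positions of `T` have a prime factor `≤ C` -/
noncomputable def Good (F T : Finset (ℕ × ℤ)) (i j : ℕ × ℤ) (C t X A B : ℕ) : Finset ℕ :=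
  (Ioc A B).filter (fun N : ℕ => Prime (term N i) ∧ Almost 2 ((X : ℝ) ^ (1 / 9 : ℝ)) (term N j) ∧
    (∀ x ∈ F, Almost t ((X : ℝ) ^ (1 / (t : ℝ))) (term N x)) ∧
    ∀ x ∈ T, ∃ q : ℕ, q.Prime ∧ q ≤ C ∧ (q : ℤ) ∣ term N x)

theorem det_ne {x y : ℕ × ℤ} (hx : x.2 = 1 ∨ x.2 = -1) (hy : y.2 = 1 ∨ y.2 = -1) (h : x ≠ y) :
    (2 : ℤ) ^ x.1 * y.2 - 2 ^ y.1 * x.2 ≠ 0 := by
  obtain ⟨l, e⟩ := x
  obtain ⟨m, f⟩ := y
  simp only at hx hy
  show (2 : ℤ) ^ l * f - 2 ^ m * e ≠ 0
  have h1 : (0 : ℤ) < 2 ^ l := by positivity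
  have h2 : (0 : ℤ) < 2 ^ m := by positivity
  intro h0
  have hlm : (2 : ℤ) ^ l = 2 ^ m → l = m := fun hh =>
    Int.pow_right_injective (by norm_num : 1 < (2 : ℤ).natAbs) hh
  rcases hx with rfl | rfl <;> rcases hy with rfl | rfl
  · exact h (by rw [hlm (by linarith)])
  · linarith
  · linarith
  · exact h (by rw [hlm (by linarith)])

theorem almost_iff {r : ℕ} {y : ℝ} {v : ℤ} (hv : 0 ≤ v) :
    Pool.Agent.X32.Uni.Almost r y v ↔ Almost r y v := by
  unfold Pool.Agent.X32.Uni.Almost Almost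
  rw [abs_of_nonneg hv]

theorem term_nonneg {N : ℕ} (hN : 1 ≤ N) {x : ℕ × ℤ} (hx : x.2 = 1 ∨ x.2 = -1) : 0 ≤ term N x := by
  unfold term
  have h1 : (1 : ℤ) ≤ 2 ^ x.1 := by exact_mod_cast Nat.one_le_two_pow
  have h2 : (1 : ℤ) ≤ N := by exact_mod_cast hN
  have h3 : (1 : ℤ) ≤ 2 ^ x.1 * N := by nlinarith
  rcases hx with h | h <;> omega

theorem result (F T : Finset (ℕ × ℤ)) (hF : ∀ x ∈ F, x.2 = 1 ∨ x.2 = -1) (hT : ∀ x ∈ T, x.2 = 1 ∨ x.2 = -1)
    (hFT : Disjoint F T) (i j : ℕ × ℤ) (hi : i ∈ F) (hj : j ∈ F) (hij : i ≠ j) :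
    ∃ C t : ℕ, 1 ≤ t ∧ ∃ κ : ℝ, 0 < κ ∧ ∀ (s : ℕ) (θ δ : ℝ), 0 < θ → 0 < δ → ∃ c X₀ : ℕ, ∀ X : ℕ, X₀ ≤ X →
      ∀ A B : ℕ, B ≤ X → θ * X ≤ (B : ℝ) - A →
        κ * ((B : ℝ) - A) / Real.log X ^ F.card ≤ ((Good F T i j C t X A B).card : ℝ) ∧
        ∀ S : Finset ℕ, S ⊆ Good F T i j C t X A B → δ * ((B : ℝ) - A) / Real.log X ^ F.card ≤ S.card →
          ∃ n d : ℕ, 1 ≤ d ∧ (d : ℝ) ≤ Real.log X ^ c ∧ ∀ l < s, n + l * d ∈ S := by
  classical
  obtain ⟨k, hk⟩ : ∃ k, k = F.card := ⟨_, rfl⟩
  let σ : {x // x ∈ F} ≃ Fin k := F.equivFinOfCardEq hk.symm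
  let g : Fin k → ℕ × ℤ := fun l => (σ.symm l).1
  have hgF : ∀ l, g l ∈ F := fun l => (σ.symm l).2
  have hginj : ∀ l m, l ≠ m → g l ≠ g m := fun l m hlm h => hlm (σ.symm.injective (Subtype.ext h))
  have hgσ : ∀ x (hx : x ∈ F), g (σ ⟨x, hx⟩) = x := fun x hx => by
    show (σ.symm (σ ⟨x, hx⟩)).1 = x
    rw [Equiv.symm_apply_apply]
  let a : Fin k → ℤ := fun l => 2 ^ (g l).1
  let b : Fin k → ℤ := fun l => (g l).2
  let T' : Finset (ℤ × ℤ) := T.image (fun x => ((2 : ℤ) ^ x.1, x.2))
  obtain ⟨C, t, ht, κ, hκ, H⟩ := Pool.Agent.X32.Uni.exactU a b (by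
      intro p hp
      refine ⟨0, fun l hd => ?_⟩
      have h1 : a l * 0 + b l = b l := by ring
      rw [h1] at hd
      have h2 : (p : ℤ) ∣ 1 := by
        rcases hF _ (hgF l) with h | h
        · have : b l = 1 := h
          rwa [this] at hd
        · have : b l = -1 := h
          rw [this] at hd
          simpa using hd
      have h3 : p ∣ 1 := by exact_mod_cast h2
      exact hp.one_lt.ne' (Nat.dvd_one.1 h3)) (fun l => by
      show (2 : ℤ) ^ (g l).1 ≠ 0
      positivity) (fun l m hlm => det_ne (hF _ (hgF l)) (hF _ (hgF m)) (hginj l m hlm))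
    (σ ⟨i, hi⟩) (σ ⟨j, hj⟩) (fun h => hij (by
      have := σ.injective h
      exact congrArg Subtype.val this)) T' (by
      intro τ hτ
      obtain ⟨x, _, rfl⟩ := mem_image.1 hτ
      show (2 : ℤ) ^ x.1 ≠ 0
      positivity) (by
      intro τ hτ l
      obtain ⟨x, hx, rfl⟩ := mem_image.1 hτ
      refine det_ne (hT _ hx) (hF _ (hgF l)) ?_
      intro h
      exact Finset.disjoint_left.1 hFT (hgF l) (h ▸ hx))
  have hGood : ∀ X A B : ℕ, Pool.Agent.X32.Uni.GE' a b T' (σ ⟨i, hi⟩) (σ ⟨j, hj⟩) C t X A B =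
      Good F T i j C t X A B := by
    intro X A B
    unfold Pool.Agent.X32.Uni.GE' Good
    apply filter_congr
    intro N hN
    have hN1 : 1 ≤ N := by
      rw [mem_Ioc] at hN
      omega
    have hterm : ∀ l, a l * (N : ℤ) + b l = term N (g l) := fun l => rfl
    simp only [hterm, hgσ]
    have e1 : (term N i).natAbs.Prime ↔ Prime (term N i) := by
      rw [Int.prime_iff_natAbs_prime]
    have e2 := almost_iff (r := 2) (y := (X : ℝ) ^ (1 / 9 : ℝ)) (term_nonneg hN1 (hF j hj))
    rw [e1, e2]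
    refine and_congr_right fun _ => and_congr_right fun _ => and_congr ?_ ?_
    · constructor
      · intro h x hx
        have h1 := h (σ ⟨x, hx⟩)
        rw [hgσ] at h1
        exact (almost_iff (term_nonneg hN1 (hF x hx))).1 h1
      · intro h l
        exact (almost_iff (term_nonneg hN1 (hF _ (hgF l)))).2 (h _ (hgF l))
    · constructor
      · intro h x hx
        exact h _ (mem_image_of_mem _ hx)
      · intro h τ hτ
        obtain ⟨x, hx, rfl⟩ := mem_image.1 hτ
        exact h x hx
  refine ⟨C, t, ht, κ, hκ, fun s θ δ hθ hδ => ?_⟩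
  obtain ⟨c, X₀, h⟩ := H s θ δ hθ hδ
  refine ⟨c, X₀, fun X hX A B hB hAB => ?_⟩
  have h1 := h X hX A B hB hAB
  rw [hGood, hk] at h1
  exact h1

end Pool.Agent.Results.MP_c183ae_nt.ChenChains
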