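import Mathlib
import Pool.Agent.K1H86.TZ.Cor

/-!
# Infinite sets of positions in Cunningham chains

Every infinite set `A` of positions contains an infinite set `T` such that, for both kinds of chains, every
subset `J` of `T` (finite or infinite) and every `K`, there are at least `x / (log x) ^ C` numbers `n ≤ x`, for
arbitrarily large `x`, for which the exact set of the positions of primes among the first `K + 1` terms of the
sequence `n, 2 n ± 1, 4 n ± 3, ...` is the part of `J` in `{0, ..., K}`.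

The multidimensional sieve of Maynard and Tao in the form of the starting files is used for products of
weights over infinitely many blocks, together with the argument of Bergelson for finitely additive limits
and the theorem of Galvin.
-/

set_option autoImplicit false

namespace Pool.Agent.Results.MP_c183ae_nt.InfiniteChainsWithGaps

open Filter
open Pool.Agent.K1H86.PP (Seq Often Often.shift Often.mono)
open Pool.Agent.K1H86.TZ (full_one Full Full.mono Full.exact Pr)

/-- the term with the number `j` of the sequence `n, 2 n + e, 2 (2 n + e) + e, ...` -/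
def term (e : ℤ) (n : ℤ) (j : ℕ) : ℤ := (fun m => 2 * m + e)^[j] n

theorem term_eq (e n : ℤ) (j : ℕ) : term e n j = 2 ^ j * n + e * (2 ^ j - 1) := by
  unfold term
  induction j with
  | zero => simp
  | succ j ih =>
    rw [Function.iterate_succ_apply', ih]
    ring

/-- the forms of a chain -/
def fm (e : ℤ) (t : ℕ) : ℤ × ℤ := (2 ^ t, e * (2 ^ t - 1))

theorem fm_seq {e : ℤ} (he : e = 1 ∨ e = -1) : Seq (fm e) where
  pos := fun t => by
    show (0 : ℤ) < 2 ^ t
    positivity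
  prim := fun t => by
    show IsCoprime ((2 : ℤ) ^ t) (e * (2 ^ t - 1))
    rcases he with rfl | rfl
    · exact ⟨1, -1, by ring⟩
    · exact ⟨1, 1, by ring⟩
  inj := fun s t hst => by
    have h1 : (2 : ℤ) ^ s = 2 ^ t := (Prod.mk.inj hst).1
    have h2 : (2 : ℕ) ^ s = 2 ^ t := by exact_mod_cast h1
    exact Nat.pow_right_injective le_rfl h2

theorem one {e : ℤ} (he : e = 1 ∨ e = -1) {T : Set ℕ} (hF : Full (fm e) T) (J : Finset ℕ)
    (hJ : (J : Set ℕ) ⊆ T) (K : ℕ) : ∃ C, Often C (fun n =>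
      ∀ j ≤ K, ((∃ p : ℕ, p.Prime ∧ term e n j = p) ↔ j ∈ J)) := by
  classical
  obtain ⟨C, hC⟩ := hF.exact J hJ (Finset.range (K + 1)) ∅ (fun r hr => absurd hr (Finset.notMem_empty _))
  refine ⟨C + 2, Often.shift 1 0 one_pos 1 hC ?_⟩
  intro n hn htr
  refine ⟨n, by ring, fun j hj => ?_⟩
  have h1 := htr.1 j (Finset.mem_union_right _ (Finset.mem_range.2 (by omega)))
  rw [← h1, term_eq]
  unfold Pr fm
  have h2 : (1 : ℤ) ≤ 2 ^ j := one_le_pow₀ (by norm_num)
  have h3 : (1 : ℤ) ≤ n := by exact_mod_cast hn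
  have h4 : (0 : ℤ) ≤ 2 ^ j * n + e * (2 ^ j - 1) := by
    rcases he with rfl | rfl <;> nlinarith
  obtain ⟨v, hv⟩ := Int.eq_ofNat_of_zero_le h4
  show _ ↔ ((2 : ℤ) ^ j * (n : ℤ) + e * (2 ^ j - 1)).natAbs.Prime
  rw [hv]
  constructor
  · rintro ⟨p, hp, he⟩
    have h5 : v = p := by exact_mod_cast he
    simpa [h5] using hp
  · intro h5
    exact ⟨v, by simpa using h5, rfl⟩

theorem result (A : Set ℕ) (hA : A.Infinite) : ∃ T ⊆ A, T.Infinite ∧
    ∀ e : ℤ, (e = 1 ∨ e = -1) → ∀ J : Set ℕ, J ⊆ T → ∀ K : ℕ,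
      ∃ C : ℕ, ∃ᶠ x : ℝ in atTop, x / Real.log x ^ C ≤ (Set.ncard {n : ℕ | (n : ℝ) ≤ x ∧
        ∀ j ≤ K, ((∃ p : ℕ, p.Prime ∧ term e n j = p) ↔ j ∈ J)} : ℝ) := by
  classical
  obtain ⟨T₁, h1, h2, h3⟩ := full_one (fm_seq (Or.inl rfl)) A hA
  obtain ⟨T, h4, h5, h6⟩ := full_one (fm_seq (Or.inr rfl)) T₁ h2
  refine ⟨T, h4.trans h1, h5, fun e he J hJ K => ?_⟩
  set J' : Finset ℕ := (Finset.range (K + 1)).filter (fun t => t ∈ J) with hJ'
  have hJJ : ∀ t ∈ J', t ∈ J := fun t ht => (Finset.mem_filter.1 ht).2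
  have hex : ∃ C : ℕ, Often C (fun n => ∀ j ≤ K, ((∃ p : ℕ, p.Prime ∧ term e n j = p) ↔ j ∈ J')) := by
    rcases he with rfl | rfl
    · exact one (Or.inl rfl) (h3.mono h4) J' (fun t ht => hJ (hJJ t ht)) K
    · exact one (Or.inr rfl) h6 J' (fun t ht => hJ (hJJ t ht)) K
  obtain ⟨C, hC⟩ := hex
  refine ⟨C, Often.mono hC fun n hn j hj => ?_⟩
  rw [hn j hj]
  exact ⟨hJJ j, fun h => Finset.mem_filter.2 ⟨Finset.mem_range.2 (by omega), h⟩⟩

end Pool.Agent.Results.MP_c183ae_nt.InfiniteChainsWithGaps
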