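import Pool.Agent.K1H73.RDW.LinAP

/-!
# Almost prime Cunningham chains of every length in progressions, short intervals and with restricted digits

Let `c_j(n)` be the `j`-th term of the chain `n, 2 n + s, 2 (2 n + s) + s, ...` (`s = 1`: first kind, `s = -1`: second
kind), and `J` a finite set of positions, for instance `{0, ..., k - 1}` for the chains of length `k`. For all
`q, a, B ≤ L ^ E`, all `c_j(a)`, `j ∈ J`, prime to `q`, and every base `b`: among the terms `n = a + q m`,
`B < m ≤ B + L`, of the progression for which the last `K = log_b (L / 3)` (integer part) digits of `m` belong to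
arbitrary sets `A i`, with the product of the `|A i|` at least `exp (- c K) b ^ K`, at least the expected number is such
that all `c_j(n)`, `j ∈ J`, are products of at most `r` primes `l`, all with `l ^ r > b ^ K`, and at most the expected
number such that all `c_j(n)`, `j ∈ J`, are primes, up to constant factors; uniformly in `q`, `a`, `B` and the `A i`.

The sieve for integers with restricted digits is the one of `Pool.Agent.Y816.PD` of the starting files (`uni_fun`;
`digits_chain` there is the case `q = 1`, `B = 0`, not handed in); new here: the progressions, uniformly in `q`, and the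
short intervals.
-/

set_option autoImplicit false

namespace Pool.Agent.Results.MP_c183ae_nt.RestrictedDigits

open Finset Filter
open Pool.Agent.K1H73.RDW

/-- the term `2 ^ j * n + s * (2 ^ j - 1)` at the position `j` of the chain starting with `n` -/
def term (s : ℤ) (j n : ℕ) : ℤ := 2 ^ j * n + s * (2 ^ j - 1)

/-- `v > 1` is a product of at most `r` primes, all of them with `z < l ^ r` -/
def Almost (r z : ℕ) (v : ℤ) : Prop :=
  1 < v ∧ v.natAbs.primeFactorsList.length ≤ r ∧ ∀ l : ℕ, l.Prime → (l : ℤ) ∣ v → z < l ^ r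

/-- the number of the elements of `S` whose `i`-th digit in base `b` belongs to `A i` for all `i < K` -/
noncomputable def count (b K : ℕ) (A : ℕ → Finset ℕ) (S : Set ℕ) : ℕ :=
  {m : ℕ | m ∈ S ∧ ∀ i < K, m / b ^ i % b ∈ A i}.ncard

/-- the `m` in `(B, B + L]` for which the terms at the positions in `J` of the chain starting with `a + q m` are almost
primes -/
def P (s : ℤ) (J : Finset ℕ) (q a B L r z : ℕ) : Set ℕ :=
  {m | (B < m ∧ m ≤ B + L) ∧ ∀ j ∈ J, Almost r z (term s j (a + q * m))}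

/-- the `m` in `(B, B + L]` for which the terms at the positions in `J` of the chain starting with `a + q m` are
primes -/
def T (s : ℤ) (J : Finset ℕ) (q a B L : ℕ) : Set ℕ :=
  {m | (B < m ∧ m ≤ B + L) ∧ ∀ j ∈ J, ∃ p : ℕ, p.Prime ∧ term s j (a + q * m) = p}

/-- the number of the classes `x` modulo `l` for which `l` divides one of the terms at the positions in `J` -/
def rho (s : ℤ) (J : Finset ℕ) (l : ℕ) : ℕ := ((range l).filter (fun x : ℕ => (l : ℤ) ∣ ∏ j ∈ J, term s j x)).card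

/-- the factor of the progression with the modulus `q` -/
noncomputable def Phi (s : ℤ) (J : Finset ℕ) (q : ℕ) : ℝ := ∏ l ∈ q.primeFactors, (1 - (rho s J l : ℝ) / l)⁻¹

/-- the coefficients -/
def ca (J : Finset ℕ) (i : {x // x ∈ J}) : ℕ := 2 ^ (i : ℕ)

/-- the constant terms -/
def ce (s : ℤ) (J : Finset ℕ) (i : {x // x ∈ J}) : ℤ := s * (2 ^ (i : ℕ) - 1)

theorem form_eq (s : ℤ) (J : Finset ℕ) (i : {x // x ∈ J}) (n : ℕ) : (ca J i : ℤ) * (n : ℤ) + ce s J i = term s i n := by
  unfold ca ce term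
  push_cast
  ring

theorem Phi_eq (s : ℤ) (J : Finset ℕ) (q : ℕ) : PhiL (ca J) (ce s J) q = Phi s J q := by
  classical
  unfold PhiL Phi
  apply prod_congr rfl
  intro l _
  have h1 : zl (ca J) (ce s J) l = rho s J l := by
    unfold zl rho
    have h2 : ∀ x : ℕ, ∏ i : {x // x ∈ J}, ((ca J i : ℤ) * (x : ℤ) + ce s J i) = ∏ j ∈ J, term s j x := by
      intro x
      rw [← prod_coe_sort J (fun j => term s j x)]
      exact prod_congr rfl fun i _ => form_eq s J i x
    simp only [h2]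
  rw [h1]

/-- **Almost prime Cunningham chains in progressions, short intervals and with restricted digits.** -/
theorem result (s : ℤ) (hs : s = 1 ∨ s = -1) (J : Finset ℕ) (hJ : J.Nonempty) (E : ℕ) :
    ∃ c : ℝ, 0 < c ∧ ∃ r₀ : ℕ, 2 ≤ r₀ ∧ ∀ r : ℕ, r₀ ≤ r → ∀ b : ℕ, 2 ≤ b → ∃ κ C : ℝ, 0 < κ ∧ 0 < C ∧
      ∀ᶠ L : ℕ in atTop, ∀ q a : ℕ, 1 ≤ q → q ≤ L ^ E → a ≤ L ^ E → (∀ j ∈ J, IsCoprime (term s j a) (q : ℤ)) →
        (∃ d < b, ∀ j ∈ J, IsCoprime (term s j (a + q * d)) (b : ℤ)) ∧
        ∀ B : ℕ, 1 ≤ B → B ≤ L ^ E → ∀ K : ℕ, K = Nat.log b (L / 3) →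
          ∀ A : ℕ → Finset ℕ, (∀ i < K, A i ⊆ range b) →
            (b : ℝ) ^ K ≤ Real.exp (c * K) * ∏ i ∈ range K, ((A i).card : ℝ) →
          ((∃ d ∈ A 0, ∀ j ∈ J, IsCoprime (term s j (a + q * d)) (b : ℤ)) →
            κ * Phi s J q * (∏ i ∈ range K, ((A i).card : ℝ)) / (K : ℝ) ^ J.card ≤
              count b K A (P s J q a B L r (b ^ K))) ∧
          (count b K A (T s J q a B L) : ℝ) ≤
            C * Phi s J q * (∏ i ∈ range K, ((A i).card : ℝ)) / (K : ℝ) ^ J.card := by
  classical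
  have hss : s * s = 1 := by rcases hs with rfl | rfl <;> norm_num
  obtain ⟨c, hc, r₀, hr₀, h⟩ := mainLAP (ca J) (ce s J) (fun i => by unfold ca; positivity)
    (fun i => ⟨1, -s, by unfold ca ce; push_cast; linear_combination (1 - 2 ^ (i : ℕ)) * hss⟩)
    (fun i j hij _ => Subtype.ext (Nat.pow_right_injective le_rfl hij))
    (by
      intro p hp
      simp only [form_eq]
      rcases hs with rfl | rfl
      · refine ⟨p - 1, fun i hd => ?_⟩
        have h1 : term 1 i (p - 1) = (2 : ℤ) ^ (i : ℕ) * p + (-1) := by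
          unfold term
          rw [Nat.cast_sub hp.one_le]
          push_cast
          ring
        rw [h1] at hd
        have h2 : (p : ℤ) ∣ -1 := (dvd_add_right (dvd_mul_left _ _)).1 hd
        have h3 : p ∣ 1 := by exact_mod_cast (dvd_neg.1 h2 : (p : ℤ) ∣ 1)
        exact hp.one_lt.ne' (Nat.dvd_one.1 h3)
      · refine ⟨1, fun i hd => ?_⟩
        have h1 : term (-1) i 1 = 1 := by
          unfold term
          push_cast
          ring
        rw [h1] at hd
        have h3 : p ∣ 1 := by exact_mod_cast hd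
        exact hp.one_lt.ne' (Nat.dvd_one.1 h3)) J.card (Fintype.card_coe J) (card_pos.2 hJ) E
  simp only [form_eq, Phi_eq] at h
  refine ⟨c, hc, r₀, hr₀, fun r hr b hb => ?_⟩
  obtain ⟨κ, C, hκ, hC, h1⟩ := h r hr b hb
  refine ⟨κ, C, hκ, hC, ?_⟩
  filter_upwards [h1] with L hL q a hq hqL haL hcop
  obtain ⟨-, -, -, e0⟩ := hL (Nat.log b (L / 3)) rfl
  refine ⟨?_, fun B hB1 hB K hK A hA hprod => ?_⟩
  · obtain ⟨⟨d, hd, hd2⟩, -⟩ := e0 q a hq hqL haL (fun i => hcop i i.2)
    exact ⟨d, hd, fun j hj => hd2 ⟨j, hj⟩⟩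
  obtain ⟨e1, e2, e3, e4⟩ := hL K hK
  obtain ⟨-, e5⟩ := e4 q a hq hqL haL (fun i => hcop i i.2)
  obtain ⟨h2, h3⟩ := e5 B hB A hA hprod
  have hfin : ∀ U : Set ℕ, {m | (m ∈ {m | (B < m ∧ m ≤ B + L) ∧ m ∈ U}) ∧ ∀ i < K, m / b ^ i % b ∈ A i}.Finite :=
    fun U => (finite_toSet (Ioc B (B + L))).subset fun m hm => by
      rw [mem_coe, mem_Ioc]; exact hm.1.1
  have hbig : ∀ m, B < m → ∀ j, 1 < term s j (a + q * m) := by
    intro m hm j
    unfold term
    have h4 : 2 ≤ a + q * m := by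
      have : 2 ≤ q * m := by nlinarith
      omega
    have h5 : (2 : ℤ) ≤ ((a + q * m : ℕ) : ℤ) := by exact_mod_cast h4
    have h6 : (1 : ℤ) ≤ 2 ^ j := one_le_pow₀ (by norm_num)
    rcases hs with rfl | rfl <;> nlinarith
  constructor
  · rintro ⟨d, hd, hcopd⟩
    refine (h2 ⟨d, hd, fun i => hcopd i i.2⟩).trans (Nat.cast_le.2 ?_)
    unfold Pool.Agent.Y816.PD.DC count
    apply Set.ncard_le_ncard
    · rintro m ⟨⟨hm, hm2⟩, hd⟩
      refine ⟨⟨hm, fun j hj => ?_⟩, hd⟩
      obtain ⟨h4, h5, h6⟩ := hm2 ⟨j, hj⟩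
      exact ⟨hbig m hm.1 j, h5, h6⟩
    · exact hfin {m | ∀ j ∈ J, Almost r (b ^ K) (term s j (a + q * m))}
  · refine le_trans (Nat.cast_le.2 ?_) h3
    unfold Pool.Agent.Y816.PD.DC count
    apply Set.ncard_le_ncard
    · rintro m ⟨⟨hm, hm2⟩, hd⟩
      refine ⟨⟨hm, fun i => ?_⟩, hd⟩
      obtain ⟨p, hp, hp2⟩ := hm2 i i.2
      rw [hp2, Int.natAbs_natCast]
      exact hp
    · exact hfin {m | ∀ i : {x // x ∈ J}, (term s i (a + q * m)).natAbs.Prime}

end Pool.Agent.Results.MP_c183ae_nt.RestrictedDigits
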